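import Pool.Agent.H41.LS.Defs

namespace Pool.Agent.H41.LS

open scoped ENNReal NNReal

/-! ## Expectations -/

/-- The expectation of `f` under `p`. -/
noncomputable def ev {α : Type*} (p : PMF α) (f : α → ℝ≥0∞) : ℝ≥0∞ := ∑' a, p a * f a

theorem ev_pure {α : Type*} (a : α) (f : α → ℝ≥0∞) : ev (PMF.pure a) f = f a := by
  classical
  unfold ev
  rw [tsum_eq_single a]
  · simp
  · intro b hb
    simp [PMF.pure_apply, hb]

theorem ev_bind {α β : Type*} (p : PMF α) (q : α → PMF β) (f : β → ℝ≥0∞) :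
    ev (p.bind q) f = ev p (fun a => ev (q a) f) := by
  unfold ev
  simp_rw [PMF.bind_apply, ← ENNReal.tsum_mul_right, ← ENNReal.tsum_mul_left]
  rw [ENNReal.tsum_comm]
  simp_rw [mul_assoc]

theorem ev_map {α β : Type*} (p : PMF α) (g : α → β) (f : β → ℝ≥0∞) :
    ev (p.map g) f = ev p (fun a => f (g a)) := by
  unfold PMF.map
  rw [ev_bind]
  simp [ev_pure]

theorem ev_indicator {α : Type*} (p : PMF α) (s : Set α) :
    p.toOuterMeasure s = ev p (s.indicator 1) := by
  classical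
  rw [PMF.toOuterMeasure_apply]
  unfold ev
  refine tsum_congr fun a => ?_
  by_cases h : a ∈ s <;> simp [h]

theorem ev_uniformOfFinset {α : Type*} (s : Finset α) (hs : s.Nonempty) (f : α → ℝ≥0∞) :
    ev (PMF.uniformOfFinset s hs) f = (∑ a ∈ s, f a) / s.card := by
  classical
  unfold ev
  rw [tsum_eq_sum (s := s)]
  · rw [ENNReal.div_eq_inv_mul, Finset.mul_sum]
    refine Finset.sum_congr rfl fun a ha => ?_
    rw [PMF.uniformOfFinset_apply_of_mem hs ha]
  · intro a ha
    rw [PMF.uniformOfFinset_apply_of_notMem hs ha, zero_mul]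

theorem bindOnSupport_const {α β : Type*} (p : PMF α) (q : α → PMF β) :
    (p.bindOnSupport fun a _ => q a) = p.bind q :=
  PMF.bindOnSupport_eq_bind p q

/-! ## A rational mirror of the process on five vertices -/

/-- The complete bipartite graph with parts `{0, 1}` and `{2, 3, 4}`. -/
def adj1 (u v : Fin 5) : Bool := (u.val < 2 && 2 ≤ v.val) || (v.val < 2 && 2 ≤ u.val)

/-- The same graph with the edge between `0` and `1` added. -/
def adj2 (u v : Fin 5) : Bool := adj1 u v || (u.val < 2 && v.val < 2 && u != v)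

def best (adj : Fin 5 → Fin 5 → Bool) (x : Fin 5 → ℕ) (v : Fin 5) : Finset (Fin 5) :=
  Finset.univ.filter (fun u => adj v u = true ∧ ∀ w, adj v w = true → x u ≤ x w)

def setQ (adj : Fin 5 → Fin 5 → Bool) :
    ℕ → (Fin 5 → ℕ) → Fin 5 → (Fin 5 → ℚ≥0) → ℚ≥0
  | 0, _, v, f => f v
  | k+1, x, v, f =>
    if ∃ u, adj v u = true ∧ x u < x v then
      (∑ u ∈ best adj x v, setQ adj k x u f) / (best adj x v).card
    else f v

def stepQ (adj : Fin 5 → Fin 5 → Bool) (f : (Fin 5 → ℕ) → ℚ≥0) (x : Fin 5 → ℕ) : ℚ≥0 :=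
  (∑ u, setQ adj (x u) x u (fun v => f (Function.update x v (x v + 1)))) / 5

def indQ (l : ℕ) (x : Fin 5 → ℕ) : ℚ≥0 := if l ≤ Finset.univ.sup x then 1 else 0

/-- The cast of a nonnegative rational. -/
noncomputable def cst (q : ℚ≥0) : ℝ≥0∞ := ((q : ℝ≥0) : ℝ≥0∞)

theorem cst_div (a : ℚ≥0) (n : ℕ) (hn : n ≠ 0) : cst (a / n) = cst a / n := by
  unfold cst
  have h : ((a / (n : ℚ≥0) : ℚ≥0) : ℝ≥0) = (a : ℝ≥0) / (n : ℝ≥0) := by push_cast; rfl
  rw [h, ENNReal.coe_div (by exact_mod_cast hn)]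
  simp

theorem cst_sum {ι : Type*} (s : Finset ι) (f : ι → ℚ≥0) :
    cst (∑ i ∈ s, f i) = ∑ i ∈ s, cst (f i) := by
  unfold cst
  push_cast
  rfl

variable {G : SimpleGraph (Fin 5)} {adj : Fin 5 → Fin 5 → Bool}

theorem minNbrs_eq (hG : ∀ u v, G.Adj u v ↔ adj u v = true) (x : Fin 5 → ℕ) (v : Fin 5) :
    minNbrs G x v = best adj x v := by
  classical
  ext u
  simp [minNbrs, best, hG]

theorem ev_settle (hG : ∀ u v, G.Adj u v ↔ adj u v = true) (x : Fin 5 → ℕ)
    (f : Fin 5 → ℚ≥0) : ∀ (k : ℕ) (v : Fin 5), x v ≤ k →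
    ev (settle G x v) (fun u => cst (f u)) = cst (setQ adj k x v f) := by
  intro k
  induction k with
  | zero =>
    intro v hv
    rw [settle, dif_neg, ev_pure, setQ]
    rintro ⟨u, -, hu⟩
    omega
  | succ k ih =>
    intro v hv
    rw [settle, setQ]
    by_cases h : ∃ u, G.Adj v u ∧ x u < x v
    · have h' : ∃ u, adj v u = true ∧ x u < x v := by
        obtain ⟨u, h1, h2⟩ := h
        exact ⟨u, (hG v u).1 h1, h2⟩
      rw [dif_pos h, if_pos h', bindOnSupport_const, ev_bind, ev_uniformOfFinset,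
        ← minNbrs_eq hG x v, cst_div _ _ (Finset.card_ne_zero.2 (minNbrs_nonempty G x v h)),
        cst_sum]
      congr 1
      refine Finset.sum_congr rfl fun u hu => ?_
      have := lt_of_mem_minNbrs G x v h hu
      exact ih u (by omega)
    · have h' : ¬ ∃ u, adj v u = true ∧ x u < x v := by
        rintro ⟨u, h1, h2⟩
        exact h ⟨u, (hG v u).2 h1, h2⟩
      rw [dif_neg h, if_neg h', ev_pure]

theorem update_inst {V : Type*} (i j : DecidableEq V) (x : V → ℕ) (v : V) (n : ℕ) :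
    @Function.update V (fun _ => ℕ) i x v n = @Function.update V (fun _ => ℕ) j x v n := by
  have h : i = j := Subsingleton.elim i j
  subst h
  rfl

theorem ev_loads (hG : ∀ u v, G.Adj u v ↔ adj u v = true) :
    ∀ (m : ℕ) (f : (Fin 5 → ℕ) → ℚ≥0),
    ev (loads G m) (fun x => cst (f x)) = cst ((stepQ adj)^[m] f 0) := by
  intro m
  induction m with
  | zero =>
    intro f
    rw [loads, ev_pure]
    rfl
  | succ m ih =>
    intro f
    rw [loads, ev_bind, Function.iterate_succ_apply, ← ih]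
    congr 1
    funext x
    rw [ev_bind]
    simp_rw [ev_map]
    rw [stepQ]
    unfold PMF.uniformOfFintype
    rw [ev_uniformOfFinset]
    have h5 : ((5 : ℚ≥0)) = ((5 : ℕ) : ℚ≥0) := by norm_num
    rw [h5, cst_div _ 5 (by norm_num), cst_sum]
    simp only [Finset.card_univ, Fintype.card_fin]
    congr 1
    refine Finset.sum_congr rfl fun u _ => ?_
    rw [← ev_settle hG x _ (x u) u le_rfl]
    refine congrArg (ev (settle G x u)) (funext fun v => ?_)
    rw [update_inst]

theorem prob_eq (hG : ∀ u v, G.Adj u v ↔ adj u v = true) (m l : ℕ) :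
    probMaxGe G m l = cst ((stepQ adj)^[m] (indQ l) 0) := by
  rw [probMaxGe, ev_indicator, ← ev_loads hG]
  congr 1
  funext x
  unfold indQ cst
  by_cases h : l ≤ Finset.univ.sup x
  · simp [h]
  · simp [h]

end Pool.Agent.H41.LS
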