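import Mathlib

/-!
# The local search allocation of balls on a finite graph

`loads G m` is the law of the load vector after `m` balls, `probMaxGe G m l` is the probability
that the maximum load after `m` balls is at least `l`.
-/

namespace Pool.Agent.H41.LS

open scoped ENNReal NNReal

/-! ## The local search allocation -/

open Classical in
/-- The neighbours of `v` whose load is minimum among all the neighbours of `v`. -/
noncomputable def minNbrs {V : Type*} [Fintype V] (G : SimpleGraph V) (x : V → ℕ) (v : V) :
    Finset V :=
  {u | G.Adj v u ∧ ∀ w, G.Adj v w → x u ≤ x w}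

theorem minNbrs_nonempty {V : Type*} [Fintype V] (G : SimpleGraph V) (x : V → ℕ) (v : V)
    (h : ∃ u, G.Adj v u ∧ x u < x v) : (minNbrs G x v).Nonempty := by
  classical
  obtain ⟨u, hu, -⟩ := h
  have hne : (Finset.univ.filter (fun w => G.Adj v w)).Nonempty := ⟨u, by simpa using hu⟩
  obtain ⟨w, hw, hmin⟩ := Finset.exists_min_image _ x hne
  refine ⟨w, ?_⟩
  simp only [minNbrs, Finset.mem_filter, Finset.mem_univ, true_and] at hw hmin ⊢
  exact ⟨hw, hmin⟩

theorem lt_of_mem_minNbrs {V : Type*} [Fintype V] (G : SimpleGraph V) (x : V → ℕ) (v : V)
    (h : ∃ u, G.Adj v u ∧ x u < x v) {u : V} (hu : u ∈ minNbrs G x v) : x u < x v := by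
  classical
  obtain ⟨w, hw, hlt⟩ := h
  simp only [minNbrs, Finset.mem_filter, Finset.mem_univ, true_and] at hu
  exact lt_of_le_of_lt (hu.2 w hw) hlt

open Classical in
/-- The law of the vertex at which a ball that is currently at `v` is finally placed, when the
loads are frozen at `x`: if the current vertex `v` has a neighbour of smaller load, the ball moves
to a uniformly random neighbour of minimum load and goes on from there; otherwise it is placed
at `v`. -/
noncomputable def settle {V : Type*} [Fintype V] (G : SimpleGraph V) (x : V → ℕ) (v : V) :
    PMF V :=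
  if h : ∃ u, G.Adj v u ∧ x u < x v then
    (PMF.uniformOfFinset (minNbrs G x v) (minNbrs_nonempty G x v h)).bindOnSupport
      fun u _ => settle G x u
  else PMF.pure v
termination_by x v
decreasing_by
  refine lt_of_mem_minNbrs G x v h ?_
  rename_i hu
  simpa [PMF.mem_support_uniformOfFinset_iff] using hu

open Classical in
/-- The law of the load vector after `m` balls of the local search allocation on `G`. -/
noncomputable def loads {V : Type*} [Fintype V] [Nonempty V] (G : SimpleGraph V) :
    ℕ → PMF (V → ℕ)
  | 0 => PMF.pure 0
  | m + 1 =>
    (loads G m).bind fun x =>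
      (PMF.uniformOfFintype V).bind fun u =>
        (settle G x u).map fun v => Function.update x v (x v + 1)

/-- The probability that the maximum load after `m` balls is at least `l`. -/
noncomputable def probMaxGe {V : Type*} [Fintype V] [Nonempty V] (G : SimpleGraph V)
    (m l : ℕ) : ℝ≥0∞ :=
  (loads G m).toOuterMeasure {x | l ≤ Finset.univ.sup x}

end Pool.Agent.H41.LS
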